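import Mathlib

/-!
A nonzero combination of the first `d + 1` iterates of a field endomorphism has a kernel of
dimension at most `d` over the fixed field.
-/

namespace Pool.Agent.Lib.MP_145fc7_co.Tri

open Finset Polynomial

variable {L : Type} [Field L]

/-- The fixed field of `φ`. -/
def fix (φ : L →+* L) : Subfield L := φ.eqLocusField (RingHom.id L)

theorem mem_fix {φ : L →+* L} {x : L} : x ∈ fix φ ↔ φ x = x := Iff.rfl

/-- `φ` as a linear map over its fixed field. -/
def lin (φ : L →+* L) : L →ₗ[fix φ] L where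
  toFun := φ
  map_add' := map_add φ
  map_smul' r x := by
    have h : φ (r : L) = r := mem_fix.1 r.2
    change φ ((r : L) * x) = (r : L) * φ x
    rw [map_mul, h]

theorem caso (φ : L →+* L) : ∀ (d : ℕ) (x : Fin d → L), LinearIndependent (fix φ) x →
    ∀ c : Fin d → L, (∀ j < d, ∑ m, c m * φ^[j] (x m) = 0) → c = 0 := by
  intro d
  induction d with
  | zero => intro x _ c _; exact Subsingleton.elim _ _
  | succ d ih =>
    intro x hx c hc
    by_contra h0
    obtain ⟨m0, hm0⟩ := Function.ne_iff.1 h0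
    have hm : c m0 ≠ 0 := hm0
    set c' : Fin (d + 1) → L := fun m => (c m0)⁻¹ * c m with hc'
    have h1 : c' m0 = 1 := inv_mul_cancel₀ hm
    have H : ∀ j < d + 1, ∑ m, c' m * φ^[j] (x m) = 0 := fun j hj => by
      simp only [hc', mul_assoc, ← Finset.mul_sum, hc j hj, mul_zero]
    have hy : LinearIndependent (fix φ) fun m : Fin d => φ (x (m0.succAbove m)) :=
      (hx.comp _ Fin.succAbove_right_injective).map' (lin φ)
        (LinearMap.ker_eq_bot.2 φ.injective)
    have he := ih _ hy (fun m => φ (c' (m0.succAbove m)) - c' (m0.succAbove m)) fun j hj => by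
      have a1 := congrArg φ (H j (by omega))
      have a2 := H (j + 1) (by omega)
      rw [map_sum, map_zero] at a1
      have a3 : ∑ m, (φ (c' m) - c' m) * φ^[j + 1] (x m) = 0 := by
        simp only [sub_mul, Finset.sum_sub_distrib, a2, sub_zero]
        rw [← a1]
        exact Finset.sum_congr rfl fun m _ => by
          rw [map_mul φ (c' m), Function.iterate_succ_apply']
      rw [Fin.sum_univ_succAbove _ m0, h1, map_one, sub_self, zero_mul, zero_add] at a3
      exact a3
    have hF : ∀ m, c' m ∈ fix φ := fun m => by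
      rcases eq_or_ne m m0 with rfl | hne
      · rw [h1]; exact one_mem _
      · obtain ⟨m', rfl⟩ := Fin.exists_succAbove_eq hne
        exact mem_fix.2 (sub_eq_zero.1 (congrFun he m'))
    have := Fintype.linearIndependent_iff.1 hx (fun m => ⟨c' m, hF m⟩) (H 0 (by omega)) m0
    exact one_ne_zero (h1.symm.trans (congrArg Subtype.val this))

theorem upper [Finite L] (φ : L →+* L) (d : ℕ) (a : ℕ → L) (j0 : ℕ) (hj : j0 ≤ d)
    (ha : a j0 ≠ 0) : Nat.card {x : L // ∑ j ∈ range (d + 1), a j * φ^[j] x = 0} ≤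
      Nat.card {x : L // φ x = x} ^ d := by
  let T : L →ₗ[fix φ] L := ∑ j ∈ range (d + 1), a j • (lin φ ^ j)
  have hT : ∀ x, T x = ∑ j ∈ range (d + 1), a j * φ^[j] x := fun x => by
    simp only [T, LinearMap.sum_apply, LinearMap.smul_apply, Module.End.pow_apply, smul_eq_mul]
    rfl
  have h1 : Module.finrank (fix φ) (LinearMap.ker T) ≤ d := by
    by_contra h
    obtain ⟨x, hx⟩ := exists_linearIndependent_of_le_finrank (R := fix φ)
      (M := LinearMap.ker T) (n := d + 1) (by omega)
    have hx' := hx.map' (LinearMap.ker T).subtype (Submodule.ker_subtype _)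
    let M : Matrix (Fin (d + 1)) (Fin (d + 1)) L := fun j m => φ^[j] (x m)
    have h2 : Function.Injective M.mulVec := by
      intro u v huv
      refine sub_eq_zero.1 (caso φ _ _ hx' (u - v) fun j hj => ?_)
      have h3 : M.mulVec (u - v) = 0 := by rw [Matrix.mulVec_sub, huv, sub_self]
      have h4 := congrFun h3 ⟨j, hj⟩
      simp only [Matrix.mulVec, dotProduct, M, Pi.zero_apply] at h4
      rw [← h4]
      exact Finset.sum_congr rfl fun m _ => mul_comm _ _
    have h5 := Matrix.vecMul_injective_iff_isUnit.2 (Matrix.mulVec_injective_iff_isUnit.1 h2)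
    have h6 : (fun j : Fin (d + 1) => a j) = 0 := h5 (by
      funext m
      have h7 := (hT (x m)).symm.trans (x m).2
      rw [Finset.sum_range] at h7
      simpa [Matrix.vecMul, dotProduct, M] using h7)
    exact ha (congrFun h6 ⟨j0, by omega⟩)
  have h8 : Nat.card {x : L // ∑ j ∈ range (d + 1), a j * φ^[j] x = 0} =
      Nat.card (LinearMap.ker T) :=
    Nat.card_congr (Equiv.subtypeEquivRight fun x => by rw [LinearMap.mem_ker, hT])
  rw [h8, Module.natCard_eq_pow_finrank (K := fix φ)]
  exact Nat.pow_le_pow_right Nat.card_pos h1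

theorem tri_upper [Finite L] (φ : L →+* L) {i w : ℕ} (h0 : 0 < i) (hi : i < w) (a b d : L)
    (h : a ≠ 0 ∨ b ≠ 0 ∨ d ≠ 0) : Nat.card {x : L // d * φ^[w] x + b * φ^[i] x + a * x = 0} ≤
      Nat.card {x : L // φ x = x} ^ w := by
  have w0 := h0.trans hi
  obtain ⟨j0, h1, h2⟩ : ∃ j0 ≤ w, ((if j0 = w then d else 0) + (if j0 = i then b else 0) +
      (if j0 = 0 then a else 0)) ≠ 0 := by
    rcases h with h | h | h
    · exact ⟨0, w0.le, by simp [h0.ne, w0.ne, h]⟩
    · exact ⟨i, hi.le, by simp [h0.ne', hi.ne, h]⟩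
    · exact ⟨w, le_rfl, by simp [w0.ne', hi.ne', h]⟩
  refine le_trans (le_of_eq (Nat.card_congr (Equiv.subtypeEquivRight fun x => ?_)))
    (upper φ w (fun j => (if j = w then d else 0) + (if j = i then b else 0) +
      (if j = 0 then a else 0)) j0 h1 h2)
  simp [add_mul, Finset.sum_add_distrib, hi.le]

theorem bin_upper [Finite L] (φ : L →+* L) {i : ℕ} (h0 : 0 < i) (a b : L) (h : a ≠ 0 ∨ b ≠ 0) :
    Nat.card {x : L // b * φ^[i] x + a * x = 0} ≤ Nat.card {x : L // φ x = x} ^ i := by
  obtain ⟨j0, h1, h2⟩ : ∃ j0 ≤ i, ((if j0 = i then b else 0) + (if j0 = 0 then a else 0)) ≠ 0 := by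
    rcases h with h | h
    · exact ⟨0, h0.le, by simp [h0.ne, h]⟩
    · exact ⟨i, le_rfl, by simp [h0.ne', h]⟩
  refine le_trans (le_of_eq (Nat.card_congr (Equiv.subtypeEquivRight fun x => ?_)))
    (upper φ i (fun j => (if j = i then b else 0) + (if j = 0 then a else 0)) j0 h1 h2)
  simp [add_mul, Finset.sum_add_distrib]

theorem card_fix [Fintype L] {q n : ℕ} (hq : 1 < q) (hn : 0 < n) (hc : Fintype.card L = q ^ n)
    (m : ℕ) : Nat.card {x : L // x ^ (q ^ m) = x} ≤ q ^ Nat.gcd m n := by
  classical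
  have hg : 1 < q ^ Nat.gcd m n := Nat.one_lt_pow (Nat.gcd_pos_of_pos_right _ hn).ne' hq
  have key : ∀ x : L, x ^ (q ^ m) = x → x ^ (q ^ Nat.gcd m n) = x := fun x hx => by
    have a1 : Function.IsPeriodicPt (fun y : L => y ^ q) m x := by
      unfold Function.IsPeriodicPt Function.IsFixedPt
      rw [pow_iterate]; exact hx
    have a2 : Function.IsPeriodicPt (fun y : L => y ^ q) n x := by
      unfold Function.IsPeriodicPt Function.IsFixedPt
      rw [pow_iterate, ← hc]; exact FiniteField.pow_card x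
    have a3 := a1.gcd a2
    unfold Function.IsPeriodicPt Function.IsFixedPt at a3
    rwa [pow_iterate] at a3
  have h1 : Nat.card {x : L // x ^ (q ^ m) = x} ≤
      Nat.card ((X ^ (q ^ Nat.gcd m n) - X : L[X]).roots.toFinset) := by
    refine Nat.card_le_card_of_injective (fun x => ⟨x.1, ?_⟩) fun x y h =>
      Subtype.ext (Subtype.mk.inj h)
    rw [Multiset.mem_toFinset, mem_roots (FiniteField.X_pow_card_sub_X_ne_zero L hg)]
    simp [key x.1 x.2]
  rw [Nat.card_eq_fintype_card (α := ((X ^ (q ^ Nat.gcd m n) - X : L[X]).roots.toFinset)),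
    Fintype.card_coe] at h1
  exact h1.trans ((Multiset.toFinset_card_le _).trans ((card_roots' _).trans
    (FiniteField.X_pow_card_sub_X_natDegree_eq L hg).le))

end Pool.Agent.Lib.MP_145fc7_co.Tri
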