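import Pool.Agent.Lib.MP_145fc7_co.Core
import Pool.Agent.Lib.MP_145fc7_co.ReduceB
import Pool.Agent.Lib.MP_145fc7_co.Tri.Upper

/-!
Trinomials with many roots, from the function-field core.
-/

namespace Pool.Agent.Lib.MP_145fc7_co.Tri

open Finset

theorem base {E : Type} [Field E] [Fintype E] (Q n s i w : ℕ) (hQ : 1 < Q)
    (hcard : Fintype.card E = Q ^ n) (φ : E →+* E) (hφ : ∀ x, φ x = x ^ Q)
    (hs : Nat.Coprime s n) (h0 : 0 < i) (hi : i < w) (hiw : Nat.Coprime i w)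
    (hco : Nat.Coprime (w - i) n) (hn : w * (12 * w * (w + 1)) ^ 2 ≤ n) :
    ∃ A B : E, Q ^ w ≤ Nat.card {x : E // x ^ (Q ^ (s * i)) = A * x + B * x ^ (Q ^ (s * w))} := by
  have w0 : 0 < w := h0.trans hi
  have small : ∀ j, 0 < j → j ≤ w → ∀ c, c ∣ n → c ∣ s * j → c ≤ w := fun j j0 hj c h1 h2 =>
    (Nat.le_of_dvd j0 ((Nat.Coprime.coprime_dvd_right h1 hs).symm.dvd_of_dvd_mul_left h2)).trans hj
  obtain ⟨a, ha⟩ := fan_nat curveCore (E := E) Q n (s * w) (s * i) 1 w hQ hcard φ hφ w0 one_pos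
    (by
      have h1 := (Nat.isCoprime_iff_coprime.2 (Nat.Coprime.mul_left hs hco)).neg_left
      rwa [show -(((s * (w - i) : ℕ)) : ℤ) = ((s * i : ℕ) : ℤ) - ((1 : ℕ) : ℤ) * ((s * w : ℕ) : ℤ) by
        push_cast [Nat.cast_sub hi.le]; ring] at h1)
    (small w w0 le_rfl) (small i h0 hi.le) hn (fun x y x0 hd => by
      by_contra hc
      push Not at hc
      obtain ⟨h1, h2, -⟩ := hc
      rw [Nat.cast_one, one_mul] at h1
      have h3 : (n : ℤ) ∣ i * x - w * y :=
        (Nat.isCoprime_iff_coprime.2 hs).symm.dvd_of_dvd_mul_left (by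
          rwa [show (s : ℤ) * (i * x - w * y) = ((s * i : ℕ) : ℤ) * x - ((s * w : ℕ) : ℤ) * y by
            push_cast; ring])
      have w0' : (0 : ℤ) < w := by exact_mod_cast w0
      have hi' : (i : ℤ) < w := by exact_mod_cast hi
      have hn' : (w : ℤ) * (12 * w * (w + 1)) ^ 2 ≤ n := by exact_mod_cast hn
      have h4 : |(i : ℤ) * x - w * y| < n := by
        have a1 : |(i : ℤ) * x - w * y| ≤ i * |x| + w * |y| := by
          refine (abs_sub _ _).trans (le_of_eq ?_)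
          rw [abs_mul, abs_mul, Nat.abs_cast, Nat.abs_cast]
        have a2 : (i : ℤ) * |x| ≤ w * w := mul_le_mul hi'.le h1.le (abs_nonneg _) w0'.le
        have a3 : (w : ℤ) * |y| < w * w := mul_lt_mul_of_pos_left h2 w0'
        have a4 : 2 * (w : ℤ) ≤ (12 * w * (w + 1)) ^ 2 := by
          have a5 : 2 * (w : ℤ) ≤ 12 * w * (w + 1) := by nlinarith
          nlinarith
        have a6 := mul_le_mul_of_nonneg_left a4 w0'.le
        linarith
      have h5 := Int.eq_zero_of_abs_lt_dvd h3 h4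
      have h6 : (w : ℤ) ∣ x := (Nat.isCoprime_iff_coprime.2 hiw).symm.dvd_of_dvd_mul_left
        ⟨y, by linarith⟩
      exact (Int.le_of_dvd (abs_pos.2 x0) ((dvd_abs _ _).2 h6)).not_gt h1)
  exact ⟨a 0, a 1, by simpa [Finset.sum_range_succ] using ha⟩

theorem both {E : Type} [Field E] [Fintype E] (Q n s i w : ℕ) (hQ : 1 < Q)
    (hcard : Fintype.card E = Q ^ n) (φ : E →+* E) (hφ : ∀ x, φ x = x ^ Q)
    (hs : Nat.Coprime s n) (h0 : 0 < i) (hi : i < w) (hiw : Nat.Coprime i w)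
    (hco : Nat.Coprime (w - i) n ∨ Nat.Coprime i n) (hn : w * (12 * w * (w + 1)) ^ 2 ≤ n) :
    ∃ A B : E, Q ^ w ≤ Nat.card {x : E // x ^ (Q ^ (s * i)) = A * x + B * x ^ (Q ^ (s * w))} := by
  rcases hco with hco | hco
  · exact base Q n s i w hQ hcard φ hφ hs h0 hi hiw hco hn
  have w0 : 0 < w := h0.trans hi
  have n0 : 0 < n := lt_of_lt_of_le (by positivity) hn
  obtain ⟨m, rfl⟩ : ∃ m, n = m + 1 := ⟨n - 1, by omega⟩
  obtain ⟨A, B, h⟩ := base Q (m + 1) (s * m) (w - i) w hQ hcard φ hφ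
    (Nat.Coprime.mul_left hs (by simp)) (by omega) (by omega)
    ((Nat.coprime_self_sub_left hi.le).2 hiw) (by rwa [Nat.sub_sub_self hi.le]) hn
  have hbij : Function.Bijective (fun y : E => y ^ (Q ^ (s * w))) := by
    have : (fun y : E => y ^ (Q ^ (s * w))) = φ^[s * w] := by
      rw [show (φ : E → E) = fun x => x ^ Q from funext hφ, pow_iterate]
    rw [this]
    exact Finite.injective_iff_bijective.mp (φ.injective.iterate _)
  refine ⟨B, A, h.trans (le_of_eq (Nat.card_congr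
    ((Equiv.ofBijective _ hbij).subtypeEquiv fun y => ?_).symm))⟩
  rw [Equiv.ofBijective_apply, ← pow_mul y, ← pow_mul y, ← pow_add, ← pow_add,
    pow_congr hcard y (a := s * w + s * m * (w - i)) (b := s * i)
      ⟨s * (w - i), by push_cast [Nat.cast_sub hi.le]; ring⟩,
    pow_congr hcard y (a := s * w + s * m * w) (b := 0) ⟨s * w, by push_cast; ring⟩,
    pow_zero, pow_one, add_comm]

theorem lower (w : ℕ) : ∃ c : ℕ, ∀ (L : Type) [Field L] [Fintype L] (p f : ℕ) [Fact p.Prime]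
    [CharP L p] (n s i : ℕ), 0 < f → Fintype.card L = (p ^ f) ^ n → c < n → Nat.Coprime s n →
    0 < i → i < w → Nat.gcd i w ∣ n → ∃ A B : L, (p ^ f) ^ w ≤
      Nat.card {x : L // x ^ ((p ^ f) ^ (s * i)) = A * x + B * x ^ ((p ^ f) ^ (s * w))} := by
  set C := w * (12 * w * (w + 1)) ^ 2 + 1 with hC
  refine ⟨w * C ^ (w + 1), fun L _ _ p f _ _ n s i f0 hcard hn hs h0 hi hg => ?_⟩
  obtain ⟨g, i', w', g0, hco, e1, e2⟩ := Nat.exists_coprime' (Nat.gcd_pos_of_pos_left w h0)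
  have eg : Nat.gcd i w = g := by rw [e1, e2, Nat.gcd_mul_right, hco.gcd_eq_one, one_mul]
  obtain ⟨n', rfl⟩ : g ∣ n := eg ▸ hg
  have i0 : 0 < i' := Nat.pos_of_mul_pos_right (e1 ▸ h0)
  have hi' : i' < w' := lt_of_mul_lt_mul_right (e1 ▸ e2 ▸ hi) (Nat.zero_le g)
  have hw' : w' ≤ w := e2 ▸ Nat.le_mul_of_pos_right _ g0
  have hgw : g ≤ w := e2 ▸ Nat.le_mul_of_pos_left _ (i0.trans hi')
  obtain ⟨m, hm, hCm, l0, hl⟩ := exists_level C (by omega) w n'
    (lt_of_mul_lt_mul_left (hn.trans_le (Nat.mul_le_mul_right _ hgw)) (Nat.zero_le w))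
  have m0 : 0 < m := by omega
  have fg0 : 0 < f * g := Nat.mul_pos f0 g0
  have := Fintype.ofFinite (GaloisField p (f * g * m))
  let _ := ZMod.algebra L p
  have hp : 1 < p := (Fact.out : p.Prime).one_lt
  have hL : Module.finrank (ZMod p) L = f * (g * n') := by
    have h1 := Module.card_eq_pow_finrank (K := ZMod p) (V := L)
    rw [hcard, ZMod.card, ← pow_mul] at h1
    exact (Nat.pow_right_injective hp h1).symm
  obtain ⟨ι⟩ := FiniteField.nonempty_algHom_of_finrank_dvd (F := ZMod p)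
    (K := GaloisField p (f * g * m)) (L := L) (by
      rw [GaloisField.finrank p (by positivity), hL, mul_assoc]
      exact Nat.mul_dvd_mul_left _ (Nat.mul_dvd_mul_left _ hm))
  obtain ⟨A, B, h⟩ := both (E := GaloisField p (f * g * m)) (p ^ (f * g)) m s i' w'
    (Nat.one_lt_pow fg0.ne' hp) (galois_card p (f * g) m fg0 m0)
    (iterateFrobenius _ p (f * g)) (fun x => iterateFrobenius_def ..)
    (Nat.Coprime.coprime_dvd_right (hm.mul_left g) hs) i0 hi' hco (by
      by_contra hc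
      push Not at hc
      obtain ⟨r1, p1, d1⟩ := Nat.exists_prime_and_dvd hc.1
      obtain ⟨r2, p2, d2⟩ := Nat.exists_prime_and_dvd hc.2
      have a1 := d1.trans (Nat.gcd_dvd_left _ _)
      have a2 := d2.trans (Nat.gcd_dvd_left _ _)
      have b1 := hl r1 p1 (d1.trans (Nat.gcd_dvd_right _ _))
        ((Nat.le_of_dvd (by omega) a1).trans (by omega))
      have b2 := hl r2 p2 (d2.trans (Nat.gcd_dvd_right _ _))
        ((Nat.le_of_dvd i0 a2).trans (by omega))
      have b3 : r1 ∣ w' := by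
        have := Nat.dvd_add a1 (b1.symm ▸ b2 ▸ a2 : r1 ∣ i')
        rwa [Nat.sub_add_cancel hi'.le] at this
      exact p1.one_lt.ne' (Nat.eq_one_of_dvd_coprimes hco (b1.symm ▸ b2 ▸ a2) b3))
    (by
      have : w' * (12 * w' * (w' + 1)) ^ 2 ≤ w * (12 * w * (w + 1)) ^ 2 := by gcongr
      omega)
  have x1 : (p ^ (f * g)) ^ w' = (p ^ f) ^ w := by rw [e2]; ring
  have x2 : (p ^ (f * g)) ^ (s * i') = (p ^ f) ^ (s * i) := by rw [e1]; ring
  have x3 : (p ^ (f * g)) ^ (s * w') = (p ^ f) ^ (s * w) := by rw [e2]; ring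
  rw [x1, x2, x3] at h
  refine ⟨ι A, ι B, h.trans (Nat.card_le_card_of_injective (fun x => ⟨ι x.1, ?_⟩) fun x y hxy =>
    Subtype.ext (ι.toRingHom.injective (Subtype.mk.inj hxy)))⟩
  simpa using congrArg ι x.2

end Pool.Agent.Lib.MP_145fc7_co.Tri
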